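import Mathlib

set_option autoImplicit false

namespace Pool.Agent.Results.MP_72aa19_al.Counterexample

open MvPolynomial

universe u

section
variable {K R : Type*} [CommRing K] [CommRing R] [Algebra K R] (𝒜 : ℕ → Submodule K R) {n : ℕ}

/-- The differential of the Koszul cocomplex of `x₁^m, …, xₙ^m`; a cochain assigns an element to
every subset of the indices. -/
def koszul (x : Fin n → R) (m : ℕ) (c : Finset (Fin n) → R) (T : Finset (Fin n)) : R :=
  ∑ j ∈ T, (-1) ^ (T.filter (· < j)).card * x j ^ m * c (T.erase j)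

/-- `H^i_{(x)}(I)_d ≠ 0`, where local cohomology is the direct limit over `m` of the Koszul
cohomology `H^i(x^m; I)` and `x j` has degree `δ j`: some cocycle of cohomological degree `i` and
internal degree `d` never becomes a coboundary under the transition maps. -/
def LocCohNe (x : Fin n → R) (δ : Fin n → ℕ) (I : Ideal R) (i : ℕ) (d : ℤ) : Prop :=
  ∃ (m : ℕ) (c : Finset (Fin n) → R), (∀ S, c S ∈ I) ∧ (∀ S, S.card ≠ i → c S = 0) ∧
    (∀ S, c S = 0 ∨ ∃ e : ℕ, c S ∈ 𝒜 e ∧ (e : ℤ) = d + m * ∑ j ∈ S, δ j) ∧ koszul x m c = 0 ∧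
    ¬ ∃ (l : ℕ) (b : Finset (Fin n) → R), (∀ S, b S ∈ I) ∧
      koszul x (m + l) b = fun S => (∏ j ∈ S, x j) ^ l * c S

/-- `reg I = max_i (a_i(I) + i)`. -/
noncomputable def reg (x : Fin n → R) (δ : Fin n → ℕ) (I : Ideal R) : EReal :=
  ⨆ (i : ℕ) (d : ℤ) (_ : LocCohNe 𝒜 x δ I i d), (((d + i : ℤ) : ℝ) : EReal)

/-- The v-number: the least degree of a homogeneous `f` with `(I : f)` prime. -/
noncomputable def vNum (I : Ideal R) : ℕ := sInf {e | ∃ f ∈ 𝒜 e, (I.colon {f}).IsPrime}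

end

variable (K : Type u) [Field K]

abbrev A : ℕ → Submodule K (MvPolynomial (Fin 2) K) := weightedHomogeneousSubmodule K ![1, 3]

lemma prime0 : Prime (X 0 : MvPolynomial (Fin 2) K) := X_prime

lemma homX (k : ℕ) : (X 0 ^ k : MvPolynomial (Fin 2) K) ∈ A K k := by
  have := (isWeightedHomogeneous_X K (![1, 3] : Fin 2 → ℕ) 0).pow k
  rwa [smul_eq_mul, show (![1, 3] : Fin 2 → ℕ) 0 = 1 from rfl, mul_one] at this

lemma vnum (k : ℕ) : vNum (A K) (Ideal.span {X 0} ^ (k + 1)) = k := by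
  rw [Ideal.span_singleton_pow]
  refine IsLeast.csInf_eq ⟨⟨X 0 ^ k, homX K k, ?_⟩,
    fun e ⟨f, hf, h⟩ => ?_⟩
  · convert (Ideal.span_singleton_prime (prime0 K).ne_zero).mpr (prime0 K)
    ext g
    rw [Submodule.mem_colon_singleton, Ideal.mem_span_singleton, Ideal.mem_span_singleton, pow_succ',
      smul_eq_mul, mul_dvd_mul_iff_right (pow_ne_zero _ (prime0 K).ne_zero)]
  have h1 := h.mem_of_pow_mem (r := X 0) (k + 1) (Submodule.mem_colon_singleton.mpr
    (Ideal.mem_span_singleton.mpr (dvd_mul_right _ _)))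
  rw [Submodule.mem_colon_singleton, Ideal.mem_span_singleton, pow_succ', smul_eq_mul,
    mul_dvd_mul_iff_left (prime0 K).ne_zero] at h1
  obtain ⟨d, hd⟩ := ne_zero_iff.mp (show f ≠ 0 by rintro rfl; exact h.ne_top (by ext; simp))
  have h2 := hf hd
  rw [X_pow_eq_monomial, monomial_one_dvd_iff_modMonomial_eq_zero] at h1
  have h3 : Finsupp.single 0 k ≤ d := by
    by_contra h3
    exact hd (by rw [← coeff_modMonomial_of_not_le _ h3, h1, coeff_zero])
  have := h3 0
  simp [Finsupp.weight_apply, Finsupp.sum_fintype] at h2 this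
  omega

lemma kos (m : ℕ) (c : Finset (Fin 2) → MvPolynomial (Fin 2) K) : koszul X m c ∅ = 0 ∧
    koszul X m c {0} = X 0 ^ m * c ∅ ∧ koszul X m c {1} = X 1 ^ m * c ∅ ∧
    koszul X m c {0, 1} = X 0 ^ m * c {1} - X 1 ^ m * c {0} := by
  refine ⟨by simp [koszul], by simp [koszul, Finset.filter_singleton],
    by simp [koszul, Finset.filter_singleton], ?_⟩
  rw [koszul, Finset.sum_pair (by simp), show Finset.erase {0, 1} (0 : Fin 2) = {1} by decide,
    show Finset.erase {0, 1} (1 : Fin 2) = {0} by decide,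
    show (Finset.filter (· < (0 : Fin 2)) {0, 1}).card = 0 by decide,
    show (Finset.filter (· < (1 : Fin 2)) {0, 1}).card = 1 by decide]
  ring

lemma cases2 (S : Finset (Fin 2)) : S = ∅ ∨ S = {0} ∨ S = {1} ∨ S = {0, 1} := by
  revert S; decide

lemma upper (k i : ℕ) (d : ℤ) (h : LocCohNe (A K) X ![1, 3] (Ideal.span {X 0} ^ k) i d) :
    d + i ≤ k - 2 := by
  obtain ⟨m, c, h1, h2, h3, h4, h5⟩ := h
  by_contra! h6
  refine h5 ⟨0, ?_⟩
  obtain ⟨-, k0, -, k1⟩ := kos K m c
  rw [h4, Pi.zero_apply] at k0 k1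
  have e0 : c ∅ = 0 := by simpa using k0.symm
  simp only [Ideal.span_singleton_pow, Ideal.mem_span_singleton] at h1 ⊢
  obtain ⟨b, hb, hb0, hb1⟩ : ∃ b, X 0 ^ k ∣ b ∧ X 0 ^ m * b = c {0} ∧ X 1 ^ m * b = c {1} := by
    have hn : ¬ (X 0 : MvPolynomial (Fin 2) K) ∣ X 1 ^ m := fun h => by
      simpa using (prime0 K).dvd_of_dvd_pow h
    obtain ⟨b, hb⟩ := (prime0 K).pow_dvd_of_dvd_mul_left m hn (b := c {0})
      ⟨_, (sub_eq_zero.mp k1.symm).symm⟩
    have e : X 1 ^ m * b = c {1} := mul_left_cancel₀ (pow_ne_zero m (prime0 K).ne_zero) (by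
      rw [hb] at k1; linear_combination k1)
    exact ⟨b, (prime0 K).pow_dvd_of_dvd_mul_left k hn (e ▸ h1 _), hb.symm, e⟩
  obtain ⟨p, q, hp, hq, e⟩ : ∃ p q, X 0 ^ k ∣ p ∧ X 0 ^ k ∣ q ∧
      X 0 ^ m * p - X 1 ^ m * q = c {0, 1} := by
    rcases eq_or_ne i 2 with rfl | hi
    swap
    · exact ⟨0, 0, by simp, by simp, by simp [h2 {0, 1} (by simpa using hi.symm)]⟩
    obtain ⟨g, hg⟩ := h1 {0, 1}
    refine ⟨X 0 ^ k * g.divMonomial (.single 0 m), -(X 0 ^ k *
      (g.modMonomial (.single 0 m)).divMonomial (.single 1 m)), by simp, by simp, ?_⟩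
    have e1 := g.divMonomial_add_modMonomial (.single 0 m)
    have e2 := (g.modMonomial (.single 0 m)).divMonomial_add_modMonomial (.single 1 m)
    have e3 : (g.modMonomial (.single 0 m)).modMonomial (.single 1 m) = 0 := by
      ext a
      by_cases a1 : Finsupp.single 1 m ≤ a
      · simp [coeff_modMonomial_of_le _ a1]
      rw [coeff_modMonomial_of_not_le _ a1]
      by_cases a0 : Finsupp.single 0 m ≤ a
      · simp [coeff_modMonomial_of_le _ a0]
      rw [coeff_modMonomial_of_not_le _ a0, coeff_zero]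
      by_contra ha
      have ha' : coeff (.single 0 k + a) (c {0, 1}) ≠ 0 := by
        rwa [hg, X_pow_eq_monomial, coeff_monomial_mul, one_mul]
      obtain h | ⟨e, he, h⟩ := h3 {0, 1}
      · simp [h] at ha'
      have := he ha'
      simp [Finsupp.weight_apply, Finsupp.sum_fintype, Finsupp.single_le_iff] at this a0 a1 h
      omega
    rw [← X_pow_eq_monomial] at e1 e2
    rw [hg]
    linear_combination X 0 ^ k * (e1 + e2 - e3)
  refine ⟨fun S => if S = ∅ then b else if S = {1} then p else q, fun S => by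
    dsimp only; split_ifs <;> assumption, funext fun S => ?_⟩
  obtain ⟨l0, l1, l2, l3⟩ := kos K m fun S => if S = ∅ then b else if S = {1} then p else q
  rw [add_zero, pow_zero, one_mul]
  rcases cases2 S with rfl | rfl | rfl | rfl
  exacts [l0.trans e0.symm, l1.trans hb0, l2.trans hb1, l3.trans e]

lemma lower (k : ℕ) : LocCohNe (A K) X ![1, 3] (Ideal.span {X 0} ^ k) 2 (k - 4) := by
  refine ⟨1, fun S => if S = {0, 1} then X 0 ^ k else 0, fun S => ?_, fun S h => if_neg ?_,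
    fun S => ?_, funext fun S => ?_, fun ⟨l, b, h1, h2⟩ => ?_⟩
  · dsimp only; split_ifs
    exacts [Ideal.pow_mem_pow (Ideal.mem_span_singleton_self _) k, zero_mem _]
  · rintro rfl; simp at h
  · dsimp only; split_ifs with h
    · exact .inr ⟨k, homX K k, by simp [h]⟩
    · simp
  · obtain ⟨l0, l1, l2, l3⟩ := kos K 1 fun S => if S = {0, 1} then X 0 ^ k else 0
    rcases cases2 S with rfl | rfl | rfl | rfl
    exacts [l0, l1.trans (mul_zero _), l2.trans (mul_zero _),
      l3.trans (by rw [if_neg (by decide), if_neg (by decide)]; simp)]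
  have h3 := (kos K _ b).2.2.2.symm.trans (congrFun h2 {0, 1})
  obtain ⟨g, hg⟩ : X 0 ^ k ∣ b {1} := by
    simpa [Ideal.span_singleton_pow, Ideal.mem_span_singleton] using h1 {1}
  have := congrArg (coeff (.single 0 (l + k) + .single 1 l)) h3
  dsimp only at this
  rw [hg, ← mul_assoc, ← pow_add, Finset.prod_pair (by simp), if_pos rfl, mul_pow, mul_right_comm,
    ← pow_add] at this
  simp [X_pow_eq_monomial, coeff_monomial_mul', Finsupp.le_def, show ¬ 1 + l ≤ l by omega] at this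

/-- In `K[x, y]` with `deg x = 1`, `deg y = 3`, the powers of `J = (x)` form a Noetherian graded
filtration with `v(J^k) = k - 1 > k - 2 = reg(J^k)` for all `k ≥ 1`. -/
theorem result (K : Type u) [Field K] [Infinite K] :
    ∃ (R : Type u) (_ : CommRing R) (_ : IsDomain R) (_ : Algebra K R) (_ : Algebra.FiniteType K R)
      (𝒜 : ℕ → Submodule K R) (_ : GradedAlgebra 𝒜) (n : ℕ) (x : Fin n → R) (δ : Fin n → ℕ)
      (J : Ideal R), 𝒜 0 = 1 ∧ (∀ j, x j ∈ 𝒜 (δ j)) ∧
      Ideal.span (Set.range x) = (HomogeneousIdeal.irrelevant 𝒜).toIdeal ∧ J.IsHomogeneous 𝒜 ∧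
      IsNoetherianRing (reesAlgebra J) ∧
      ∀ k : ℕ, 1 ≤ k → (vNum 𝒜 (J ^ k) : ℤ) = k - 1 ∧ reg 𝒜 x δ (J ^ k) = (((k - 2 : ℤ) : ℝ) : EReal) ∧
        reg 𝒜 x δ (J ^ k) < (vNum 𝒜 (J ^ k) : ℕ) := by
  let := weightedGradedAlgebra K (![1, 3] : Fin 2 → ℕ)
  have hX := isWeightedHomogeneous_X K (![1, 3] : Fin 2 → ℕ)
  have hw : ∀ j, (![1, 3] : Fin 2 → ℕ) j ≠ 0 := by decide
  refine ⟨MvPolynomial (Fin 2) K, inferInstance, inferInstance, inferInstance, inferInstance, A K,
    this, 2, X, ![1, 3], Ideal.span {X 0}, ?_, hX, ?_,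
    Ideal.homogeneous_span _ _ fun x hx => ⟨_, hx ▸ hX 0⟩, inferInstance, fun k hk => ?_⟩
  · refine le_antisymm (fun f hf => Submodule.mem_one.mpr ⟨coeff 0 f, ?_⟩)
      (Submodule.one_le.mpr (isWeightedHomogeneous_one K _))
    rw [algebraMap_eq, ← weightedHomogeneousComponent_zero f hw]
    exact IsWeightedHomogeneous.weightedHomogeneousComponent_same hf
  · ext f
    rw [← Set.image_univ, mem_ideal_span_X_image, HomogeneousIdeal.mem_iff,
      HomogeneousIdeal.mem_irrelevant_iff, GradedRing.proj_apply]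
    change _ ↔ ((weightedDecomposition K ![1, 3]).decompose' f 0 : MvPolynomial (Fin 2) K) = 0
    rw [weightedDecomposition.decompose'_apply, weightedHomogeneousComponent_zero f hw, C_eq_zero]
    refine ⟨fun h => by_contra fun h' => by simpa using h 0 (mem_support_iff.mpr h'),
      fun h m hm => by_contra fun h' => mem_support_iff.mp hm ?_⟩
    rwa [show m = 0 by ext i; simpa using not_exists.mp h' i]
  obtain ⟨k, rfl⟩ := Nat.exists_eq_add_of_le' hk
  have : reg (A K) X ![1, 3] (Ideal.span {X 0} ^ (k + 1)) = ((((k + 1 : ℕ) - 2 : ℤ) : ℝ) : EReal) :=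
    le_antisymm (iSup_le fun i => iSup₂_le fun d h => by exact_mod_cast upper K _ i d h)
      (le_iSup_of_le 2 (le_iSup₂_of_le _ (lower K _) (le_of_eq (by congr 1; push_cast; ring))))
  rw [this, vnum]
  refine ⟨by simp, rfl, ?_⟩
  exact_mod_cast (by omega : ((k + 1 : ℕ) - 2 : ℤ) < k)

end Pool.Agent.Results.MP_72aa19_al.Counterexample
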